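import Mathlib

/-!
Edit distance (Levenshtein distance) and two basic facts: a lower bound by potentials and an upper
bound by concatenation.
-/

namespace Pool.Agent.Lib.MP_716191_lc

variable {α : Type*}

/-- One edit: `v` arises from `u` by inserting, deleting or substituting one symbol. -/
inductive Edit (α : Type*) : List α → List α → Prop
  | ins (a b : List α) (c : α) : Edit α (a ++ b) (a ++ c :: b)
  | del (a b : List α) (c : α) : Edit α (a ++ c :: b) (a ++ b)
  | sub (a b : List α) (c d : α) : Edit α (a ++ c :: b) (a ++ d :: b)

/-- `EditSeq k u v`: the string `u` can be transformed into `v` by exactly `k` edits. -/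
inductive EditSeq (α : Type*) : ℕ → List α → List α → Prop
  | refl (u : List α) : EditSeq α 0 u u
  | step {k : ℕ} {u v w : List α} : Edit α u v → EditSeq α k v w → EditSeq α (k + 1) u w

/-- The edit distance: the least number of single symbol edits transforming `u` into `v`. -/
noncomputable def editDist (u v : List α) : ℕ := sInf {k | EditSeq α k u v}

theorem EditSeq.trans {j k : ℕ} {u v w : List α} (h : EditSeq α j u v) (h' : EditSeq α k v w) :
    EditSeq α (j + k) u w := by
  induction h with
  | refl u => simpa using h'
  | @step j u v w hs _ ih =>
    have := EditSeq.step hs (ih h')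
    have e : j + 1 + k = j + k + 1 := by omega
    rw [e]; exact this

theorem Edit.context {u v : List α} (h : Edit α u v) (p s : List α) :
    Edit α (p ++ u ++ s) (p ++ v ++ s) := by
  cases h with
  | ins a b c => simpa using Edit.ins (p ++ a) (b ++ s) c
  | del a b c => simpa using Edit.del (p ++ a) (b ++ s) c
  | sub a b c d => simpa using Edit.sub (p ++ a) (b ++ s) c d

theorem EditSeq.context {k : ℕ} {u v : List α} (h : EditSeq α k u v) (p s : List α) :
    EditSeq α k (p ++ u ++ s) (p ++ v ++ s) := by
  induction h with
  | refl u => exact EditSeq.refl _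
  | step hs _ ih => exact EditSeq.step (hs.context p s) ih

theorem EditSeq.append {j k : ℕ} {u v u' v' : List α} (h : EditSeq α j u v)
    (h' : EditSeq α k u' v') : EditSeq α (j + k) (u ++ u') (v ++ v') := by
  have h1 := h.context [] u'
  have h2 := h'.context v []
  simp only [List.nil_append, List.append_nil] at h1 h2
  exact h1.trans h2

theorem editSeq_nil_left (v : List α) : EditSeq α v.length [] v := by
  induction v with
  | nil => exact EditSeq.refl _
  | cons c v ih =>
    have h1 : EditSeq α 1 [] [c] := EditSeq.step (Edit.ins [] [] c) (EditSeq.refl _)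
    have := h1.append ih
    simp only [List.nil_append, List.singleton_append] at this
    rw [List.length_cons, Nat.add_comm]; exact this

theorem editSeq_nil_right (v : List α) : EditSeq α v.length v [] := by
  induction v with
  | nil => exact EditSeq.refl _
  | cons c v ih =>
    have h1 : EditSeq α 1 [c] [] := EditSeq.step (Edit.del [] [] c) (EditSeq.refl _)
    have := h1.append ih
    simp only [List.nil_append, List.singleton_append] at this
    rw [List.length_cons, Nat.add_comm]; exact this

/-- Any two strings are at distance at most the larger length. -/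
theorem editSeq_max (u v : List α) : EditSeq α (max u.length v.length) u v := by
  induction u generalizing v with
  | nil => simpa using editSeq_nil_left v
  | cons c u ih =>
    cases v with
    | nil => simpa using editSeq_nil_right (c :: u)
    | cons d v =>
      have h1 : EditSeq α 1 [c] [d] := EditSeq.step (Edit.sub [] [] c d) (EditSeq.refl _)
      have := h1.append (ih v)
      simp only [List.singleton_append] at this
      have e : max (c :: u).length (d :: v).length = 1 + max u.length v.length := by
        simp only [List.length_cons]; omega
      rw [e]; exact this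

theorem editDist_le {k : ℕ} {u v : List α} (h : EditSeq α k u v) : editDist u v ≤ k :=
  Nat.sInf_le h

/-- Splitting an edit sequence between two suffixes at a pair of positions. -/
theorem editSeq_split {a b : ℕ} (xs ys : List α) (i j i' j' : ℕ) (hi : i ≤ i') (hj : j ≤ j')
    (h : EditSeq α a ((xs.drop i).take (i' - i)) ((ys.drop j).take (j' - j)))
    (h' : EditSeq α b (xs.drop i') (ys.drop j')) :
    EditSeq α (a + b) (xs.drop i) (ys.drop j) := by
  have h2 := h.append h'
  have e1 : (xs.drop i).take (i' - i) ++ xs.drop i' = xs.drop i := by
    have : xs.drop i' = (xs.drop i).drop (i' - i) := by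
      rw [List.drop_drop]; congr 1; omega
    rw [this, List.take_append_drop]
  have e2 : (ys.drop j).take (j' - j) ++ ys.drop j' = ys.drop j := by
    have : ys.drop j' = (ys.drop j).drop (j' - j) := by
      rw [List.drop_drop]; congr 1; omega
    rw [this, List.take_append_drop]
  rwa [e1, e2] at h2

theorem EditSeq.of_eq {u v : List α} (h : u = v) : EditSeq α 0 u v := by
  rw [h]; exact EditSeq.refl _

section lev

variable [DecidableEq α]

/-- The Wagner-Fischer recursion. -/
def lev : List α → List α → ℕ
  | [], ys => ys.length
  | xs, [] => xs.length
  | x :: xs, y :: ys =>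
    min (1 + lev xs (y :: ys)) (min (1 + lev (x :: xs) ys) ((if x = y then 0 else 1) + lev xs ys))
termination_by xs ys => xs.length + ys.length

theorem lev_nil_left (ys : List α) : lev [] ys = ys.length := by
  unfold lev; rfl

theorem lev_nil_right (xs : List α) : lev xs [] = xs.length := by
  cases xs with
  | nil => rw [lev_nil_left]
  | cons x xs => unfold lev; rfl

theorem lev_cons_cons (x : α) (xs : List α) (y : α) (ys : List α) :
    lev (x :: xs) (y :: ys) =
      min (1 + lev xs (y :: ys))
        (min (1 + lev (x :: xs) ys) ((if x = y then 0 else 1) + lev xs ys)) := by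
  rw [lev]

theorem lev_ins (b : List α) (y : α) (ys : List α) : lev b (y :: ys) ≤ 1 + lev b ys := by
  cases b with
  | nil => simp [lev_nil_left]
  | cons c b => rw [lev_cons_cons]; omega

theorem lev_del (c : α) (b w : List α) : lev (c :: b) w ≤ 1 + lev b w := by
  cases w with
  | nil => simp [lev_nil_right]
  | cons y ys => rw [lev_cons_cons]; omega

theorem lev_tail (c : α) (b w : List α) : lev b w ≤ 1 + lev (c :: b) w := by
  induction w with
  | nil => simp [lev_nil_right]; omega
  | cons y ys ih =>
    rw [lev_cons_cons]
    have h1 := lev_ins b y ys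
    split_ifs <;> omega

theorem lev_subst (c d : α) (b w : List α) : lev (c :: b) w ≤ 1 + lev (d :: b) w := by
  induction w with
  | nil => simp [lev_nil_right]
  | cons y ys ih =>
    rw [lev_cons_cons, lev_cons_cons]
    split_ifs <;> omega

theorem lev_cons_mono {u v : List α} (h : ∀ w, lev u w ≤ 1 + lev v w) (a : α) (w : List α) :
    lev (a :: u) w ≤ 1 + lev (a :: v) w := by
  induction w with
  | nil =>
    have := h []
    simp only [lev_nil_right] at this
    simp only [lev_nil_right, List.length_cons]; omega
  | cons y ys ih =>
    rw [lev_cons_cons, lev_cons_cons]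
    have h1 := h (y :: ys)
    have h2 := h ys
    split_ifs <;> omega

theorem lev_append_mono {u v : List α} (h : ∀ w, lev u w ≤ 1 + lev v w) (a w : List α) :
    lev (a ++ u) w ≤ 1 + lev (a ++ v) w := by
  induction a generalizing w with
  | nil => exact h w
  | cons c a ih => exact lev_cons_mono (fun w => ih w) c w

theorem lev_edit {u v : List α} (h : Edit α u v) (w : List α) : lev u w ≤ 1 + lev v w := by
  cases h with
  | ins a b c => exact lev_append_mono (fun w => lev_tail c b w) a w
  | del a b c => exact lev_append_mono (fun w => lev_del c b w) a w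
  | sub a b c d => exact lev_append_mono (fun w => lev_subst c d b w) a w

theorem lev_self (u : List α) : lev u u = 0 := by
  induction u with
  | nil => simp [lev_nil_left]
  | cons c u ih => rw [lev_cons_cons]; simp [ih]

theorem lev_le_editSeq {k : ℕ} {u v : List α} (h : EditSeq α k u v) : lev u v ≤ k := by
  induction h with
  | refl u => rw [lev_self]
  | step hs _ ih =>
    have := lev_edit hs
    rename_i w _
    have := this w
    omega

theorem lev_le_editDist (u v : List α) : lev u v ≤ editDist u v := by
  have hne : {k | EditSeq α k u v}.Nonempty := ⟨_, editSeq_max u v⟩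
  exact lev_le_editSeq (Nat.sInf_mem hne)

/-- Lower bound by a potential on the grid. -/
theorem potential_le_lev (xs ys : List α) (f : ℕ → ℕ → ℕ)
    (h1 : ∀ i j, i < xs.length → j ≤ ys.length → f i j ≤ 1 + f (i + 1) j)
    (h2 : ∀ i j, i ≤ xs.length → j < ys.length → f i j ≤ 1 + f i (j + 1))
    (h3 : ∀ i j (hi : i < xs.length) (hj : j < ys.length),
      f i j ≤ (if xs[i] = ys[j] then 0 else 1) + f (i + 1) (j + 1))
    (h0 : f xs.length ys.length = 0) :
    ∀ N i j, N = (xs.length - i) + (ys.length - j) → i ≤ xs.length → j ≤ ys.length →
      f i j ≤ lev (xs.drop i) (ys.drop j) := by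
  intro N
  induction N using Nat.strong_induction_on with
  | _ N ih =>
    intro i j hN hi hj
    rcases Nat.lt_or_ge i xs.length with hi' | hi'
    · rcases Nat.lt_or_ge j ys.length with hj' | hj'
      · rw [List.drop_eq_getElem_cons hi', List.drop_eq_getElem_cons hj', lev_cons_cons]
        have e1 := ih ((xs.length - (i+1)) + (ys.length - j)) (by omega) (i+1) j rfl (by omega) hj
        have e2 := ih ((xs.length - i) + (ys.length - (j+1))) (by omega) i (j+1) rfl hi (by omega)
        have e3 := ih ((xs.length - (i+1)) + (ys.length - (j+1))) (by omega) (i+1) (j+1) rfl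
          (by omega) (by omega)
        rw [List.drop_eq_getElem_cons hj'] at e1
        rw [List.drop_eq_getElem_cons hi'] at e2
        have g1 := h1 i j hi' hj
        have g2 := h2 i j hi hj'
        have g3 := h3 i j hi' hj'
        split_ifs at g3 ⊢ with hc <;> omega
      · have hj'' : j = ys.length := by omega
        have e1 := ih ((xs.length - (i+1)) + (ys.length - j)) (by omega) (i+1) j rfl (by omega) hj
        have g1 := h1 i j hi' hj
        rw [hj''] at e1 g1 ⊢
        rw [List.drop_length, lev_nil_right] at e1 ⊢
        rw [List.length_drop] at e1 ⊢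
        omega
    · have hi'' : i = xs.length := by omega
      rcases Nat.lt_or_ge j ys.length with hj' | hj'
      · have e2 := ih ((xs.length - i) + (ys.length - (j+1))) (by omega) i (j+1) rfl hi (by omega)
        have g2 := h2 i j hi hj'
        rw [hi''] at e2 g2 ⊢
        rw [List.drop_length, lev_nil_left] at e2 ⊢
        rw [List.length_drop] at e2 ⊢
        omega
      · have hj'' : j = ys.length := by omega
        rw [hi'', hj'', h0]; exact Nat.zero_le _

theorem potential_le_editDist (xs ys : List α) (f : ℕ → ℕ → ℕ)
    (h1 : ∀ i j, i < xs.length → j ≤ ys.length → f i j ≤ 1 + f (i + 1) j)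
    (h2 : ∀ i j, i ≤ xs.length → j < ys.length → f i j ≤ 1 + f i (j + 1))
    (h3 : ∀ i j (hi : i < xs.length) (hj : j < ys.length),
      f i j ≤ (if xs[i] = ys[j] then 0 else 1) + f (i + 1) (j + 1))
    (h0 : f xs.length ys.length = 0) : f 0 0 ≤ editDist xs ys := by
  have := potential_le_lev xs ys f h1 h2 h3 h0 _ 0 0 rfl (Nat.zero_le _) (Nat.zero_le _)
  simp only [List.drop_zero] at this
  exact this.trans (lev_le_editDist xs ys)

end lev

end Pool.Agent.Lib.MP_716191_lc
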