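import Pool.Agent.Lib.MP_716191_lc.Edit

/-!
The hard instances: `x` is the identity string, `y` shares with it a common beginning and a block
shifted by `2m`; a hidden match is planted in the middle.
-/

namespace Pool.Agent.Lib.MP_716191_lc

/-- The fixed string `x`. -/
def baseX (n : ℕ) : Fin n → ℕ := fun i => i

/-- The base string `y`. -/
def baseY (n m : ℕ) : Fin n → ℕ := fun j =>
  if (j : ℕ) < n - 5 * m then j else if (j : ℕ) < n - 2 * m then n + j else j - 2 * m

/-- The string `y` with the symbol at `j₀` replaced by the symbol `i₀`. -/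
def hiddenY (n m : ℕ) (c : Fin n × Fin n) : Fin n → ℕ :=
  Function.update (baseY n m) c.2 (c.1 : ℕ)

/-- The candidate pairs. -/
def cand (n m : ℕ) : Finset (Fin n × Fin n) :=
  Finset.univ.filter (fun c => n - 5 * m ≤ (c.1 : ℕ) ∧ (c.1 : ℕ) < n - 5 * m + m ∧
    n - 5 * m + m ≤ (c.2 : ℕ) ∧ (c.2 : ℕ) < n - 5 * m + 2 * m)

theorem mem_cand {n m : ℕ} {c : Fin n × Fin n} : c ∈ cand n m ↔ n - 5 * m ≤ (c.1 : ℕ) ∧
    (c.1 : ℕ) < n - 5 * m + m ∧ n - 5 * m + m ≤ (c.2 : ℕ) ∧ (c.2 : ℕ) < n - 5 * m + 2 * m := by
  simp [cand]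

theorem card_cand {n m : ℕ} (h : 5 * m ≤ n) : m ^ 2 ≤ (cand n m).card := by
  have : (Finset.univ : Finset (Fin m × Fin m)).card ≤ (cand n m).card := by
    refine Finset.card_le_card_of_injOn
      (fun p => (⟨n - 5 * m + p.1, by omega⟩, ⟨n - 5 * m + m + p.2, by omega⟩)) ?_ ?_
    · intro p _
      have h1 := p.1.2
      have h2 := p.2.2
      simp only [Finset.coe_filter, cand, Set.mem_ofPred_eq, Finset.mem_univ, true_and]
      refine ⟨by omega, by omega, by omega, by omega⟩
    · intro p _ q _ hpq
      simp only [Prod.mk.injEq, Fin.mk.injEq] at hpq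
      ext <;> omega
  simpa [sq] using this

theorem baseY_injective {n m : ℕ} (h : 5 * m ≤ n) : Function.Injective (baseY n m) := by
  intro a b hab
  simp only [baseY] at hab
  have h1 := a.2
  have h2 := b.2
  ext
  split_ifs at hab <;> omega

theorem hiddenY_injective {n m : ℕ} (h : 5 * m ≤ n) {c : Fin n × Fin n} (hc : c ∈ cand n m) :
    Function.Injective (hiddenY n m c) := by
  rw [mem_cand] at hc
  have key : ∀ b : Fin n, baseY n m b ≠ (c.1 : ℕ) := by
    intro b hb
    simp only [baseY] at hb
    have h1 := b.2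
    have h2 := c.1.2
    split_ifs at hb <;> omega
  intro a b hab
  simp only [hiddenY, Function.update_apply] at hab
  split_ifs at hab with h1 h2 h2
  · rw [h1, h2]
  · exact absurd hab.symm (key b)
  · exact absurd hab (key a)
  · exact baseY_injective h hab

theorem pot_match1 (N m i : ℕ) (hi : i < N) :
    min ((N + 5 * m - i) - (N - i) + (i - i))
      ((N + 5 * m - i) - (N - i) - min (2 * m) (N + 3 * m - i) + (2 * m + i - i)) ≤
    min ((N + 5 * m - (i + 1)) - (N - (i + 1)) + (i + 1 - (i + 1)))
      ((N + 5 * m - (i + 1)) - (N - (i + 1)) - min (2 * m) (N + 3 * m - (i + 1)) +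
        (2 * m + (i + 1) - (i + 1))) := by
  omega

theorem pot_match2 (N m i : ℕ) (hi : N + m ≤ i) (hi' : i < N + 3 * m) :
    min ((N + 5 * m - i) - (N - i) + (i - (i + 2 * m)))
      ((N + 5 * m - i) - (N - i) - min (2 * m) (N + 3 * m - i) + (2 * m + i - (i + 2 * m))) ≤
    min ((N + 5 * m - (i + 1)) - (N - (i + 1)) + (i + 1 - (i + 2 * m + 1)))
      ((N + 5 * m - (i + 1)) - (N - (i + 1)) - min (2 * m) (N + 3 * m - (i + 1)) +
        (2 * m + (i + 1) - (i + 2 * m + 1))) := by
  omega

theorem pot_sub (N m i j : ℕ) (hi : i < N + 5 * m) :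
    min ((N + 5 * m - i) - (N - i) + (i - j))
      ((N + 5 * m - i) - (N - i) - min (2 * m) (N + 3 * m - i) + (2 * m + i - j)) ≤
    1 + min ((N + 5 * m - (i + 1)) - (N - (i + 1)) + (i + 1 - (j + 1)))
      ((N + 5 * m - (i + 1)) - (N - (i + 1)) - min (2 * m) (N + 3 * m - (i + 1)) +
        (2 * m + (i + 1) - (j + 1))) := by
  omega

theorem pot_del (N m i j : ℕ) (hi : i < N + 5 * m) :
    min ((N + 5 * m - i) - (N - i) + (i - j))
      ((N + 5 * m - i) - (N - i) - min (2 * m) (N + 3 * m - i) + (2 * m + i - j)) ≤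
    1 + min ((N + 5 * m - (i + 1)) - (N - (i + 1)) + (i + 1 - j))
      ((N + 5 * m - (i + 1)) - (N - (i + 1)) - min (2 * m) (N + 3 * m - (i + 1)) +
        (2 * m + (i + 1) - j)) := by
  omega

theorem pot_ins (N m i j : ℕ) :
    min ((N + 5 * m - i) - (N - i) + (i - j))
      ((N + 5 * m - i) - (N - i) - min (2 * m) (N + 3 * m - i) + (2 * m + i - j)) ≤
    1 + min ((N + 5 * m - i) - (N - i) + (i - (j + 1)))
      ((N + 5 * m - i) - (N - i) - min (2 * m) (N + 3 * m - i) + (2 * m + i - (j + 1))) := by
  omega

theorem le_editDist_base {n m : ℕ} (h : 5 * m ≤ n) :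
    5 * m ≤ editDist (List.ofFn (baseX n)) (List.ofFn (baseY n m)) := by
  obtain ⟨N, rfl⟩ : ∃ N, n = N + 5 * m := ⟨n - 5 * m, by omega⟩
  have key := potential_le_editDist (List.ofFn (baseX (N + 5 * m)))
    (List.ofFn (baseY (N + 5 * m) m))
    (fun i j => min ((N + 5 * m - i) - (N - i) + (i - j))
      ((N + 5 * m - i) - (N - i) - min (2 * m) (N + 3 * m - i) + (2 * m + i - j)))
    ?_ ?_ ?_ ?_
  · refine le_trans ?_ key
    omega
  · intro i j hi hj
    simp only [List.length_ofFn] at hi hj
    exact pot_del N m i j hi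
  · intro i j hi hj
    exact pot_ins N m i j
  · intro i j hi hj
    simp only [List.getElem_ofFn, baseX, baseY]
    simp only [List.length_ofFn] at hi hj
    have e1 : N + 5 * m - 5 * m = N := by omega
    have e2 : N + 5 * m - 2 * m = N + 3 * m := by omega
    rw [e1, e2]
    rcases Nat.lt_or_ge j N with hjN | hjN
    · rw [if_pos hjN]
      split_ifs with hc
      · subst hc; rw [Nat.zero_add]; exact pot_match1 N m i hjN
      · exact pot_sub N m i j hi
    · rw [if_neg (show ¬ j < N by omega)]
      rcases Nat.lt_or_ge j (N + 3 * m) with hj3 | hj3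
      · rw [if_pos hj3, if_neg (show ¬ i = N + 5 * m + j by omega)]
        exact pot_sub N m i j hi
      · rw [if_neg (show ¬ j < N + 3 * m by omega)]
        split_ifs with hc
        · have hj2 : j = i + 2 * m := by omega
          subst hj2
          rw [Nat.zero_add]; exact pot_match2 N m i (by omega) (by omega)
        · exact pot_sub N m i j hi
  · simp only [List.length_ofFn]
    omega

theorem editDist_base_le {n m : ℕ} (h : 5 * m ≤ n) :
    editDist (List.ofFn (baseX n)) (List.ofFn (baseY n m)) ≤ 5 * m := by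
  set xs := List.ofFn (baseX n) with hxs
  set ys := List.ofFn (baseY n m) with hys
  have lx : xs.length = n := by simp [hxs]
  have ly : ys.length = n := by simp [hys]
  have s1 : EditSeq ℕ (0 + 5 * m) (xs.drop 0) (ys.drop 0) := by
    apply editSeq_split xs ys 0 0 (n - 5 * m) (n - 5 * m) (by omega) (by omega)
    · apply EditSeq.of_eq
      apply List.ext_getElem
      · simp [lx, ly]
      · intro t h1 h2
        simp only [List.length_take, List.length_drop, lx] at h1
        simp only [List.getElem_take, List.getElem_drop, hxs, hys, List.getElem_ofFn, baseX, baseY]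
        split_ifs <;> omega
    · have := editSeq_max (xs.drop (n - 5 * m)) (ys.drop (n - 5 * m))
      have e : max (xs.drop (n - 5 * m)).length (ys.drop (n - 5 * m)).length = 5 * m := by
        simp only [List.length_drop, lx, ly]; omega
      rwa [e] at this
  simp only [List.drop_zero, Nat.zero_add] at s1
  exact editDist_le s1

theorem editDist_hidden {n m : ℕ} (h : 5 * m ≤ n) {c : Fin n × Fin n} (hc : c ∈ cand n m) :
    editDist (List.ofFn (baseX n)) (List.ofFn (hiddenY n m c)) ≤ 5 * m - 1 := by
  rw [mem_cand] at hc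
  obtain ⟨i0, j0⟩ := c
  simp only at hc
  set xs := List.ofFn (baseX n) with hxs
  set ys := List.ofFn (hiddenY n m (i0, j0)) with hys
  have lx : xs.length = n := by simp [hxs]
  have ly : ys.length = n := by simp [hys]
  have hj0 := j0.2
  have hi0 := i0.2
  have s5 : EditSeq ℕ (2 * m) (xs.drop (n - 2 * m)) (ys.drop n) := by
    have := editSeq_max (xs.drop (n - 2 * m)) (ys.drop n)
    have e : max (xs.drop (n - 2 * m)).length (ys.drop n).length = 2 * m := by
      simp only [List.length_drop, lx, ly]; omega
    rwa [e] at this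
  have s4 : EditSeq ℕ (0 + 2 * m) (xs.drop (n - 5 * m + m)) (ys.drop (n - 2 * m)) := by
    apply editSeq_split xs ys _ _ (n - 2 * m) n (by omega) (by omega) _ s5
    apply EditSeq.of_eq
    apply List.ext_getElem
    · simp only [List.length_take, List.length_drop, lx, ly]; omega
    · intro t h1 h2
      simp only [List.length_take, List.length_drop, lx] at h1
      simp only [List.getElem_take, List.getElem_drop, hxs, hys, List.getElem_ofFn, baseX,
        hiddenY, baseY, Function.update_apply, Fin.ext_iff]
      split_ifs <;> omega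
  have s3 : EditSeq ℕ ((n - 2 * m - (j0 + 1)) + (0 + 2 * m)) (xs.drop (i0 + 1))
      (ys.drop (j0 + 1)) := by
    apply editSeq_split xs ys _ _ (n - 5 * m + m) (n - 2 * m) (by omega) (by omega) _ s4
    have := editSeq_max ((xs.drop (i0 + 1)).take (n - 5 * m + m - (i0 + 1)))
      ((ys.drop (j0 + 1)).take (n - 2 * m - (j0 + 1)))
    have e : max ((xs.drop (i0 + 1)).take (n - 5 * m + m - (i0 + 1))).length
        ((ys.drop (j0 + 1)).take (n - 2 * m - (j0 + 1))).length = n - 2 * m - (j0 + 1) := by
      simp only [List.length_take, List.length_drop, lx, ly]; omega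
    rwa [e] at this
  have s2 : EditSeq ℕ (0 + ((n - 2 * m - (j0 + 1)) + (0 + 2 * m))) (xs.drop i0)
      (ys.drop j0) := by
    apply editSeq_split xs ys _ _ (i0 + 1) (j0 + 1) (by omega) (by omega) _ s3
    apply EditSeq.of_eq
    apply List.ext_getElem
    · simp only [List.length_take, List.length_drop, lx, ly]; omega
    · intro t h1 h2
      simp only [List.length_take, List.length_drop, lx] at h1
      have ht : t = 0 := by omega
      subst ht
      simp only [List.getElem_take, List.getElem_drop, hxs, hys, List.getElem_ofFn, baseX,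
        hiddenY, Function.update_apply, Fin.ext_iff]
      simp
  have s1 : EditSeq ℕ ((j0 - (n - 5 * m)) + (0 + ((n - 2 * m - (j0 + 1)) + (0 + 2 * m))))
      (xs.drop (n - 5 * m)) (ys.drop (n - 5 * m)) := by
    apply editSeq_split xs ys _ _ i0 j0 (by omega) (by omega) _ s2
    have := editSeq_max ((xs.drop (n - 5 * m)).take (i0 - (n - 5 * m)))
      ((ys.drop (n - 5 * m)).take (j0 - (n - 5 * m)))
    have e : max ((xs.drop (n - 5 * m)).take (i0 - (n - 5 * m))).length
        ((ys.drop (n - 5 * m)).take (j0 - (n - 5 * m))).length = j0 - (n - 5 * m) := by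
      simp only [List.length_take, List.length_drop, lx, ly]; omega
    rwa [e] at this
  have s0 : EditSeq ℕ (0 + ((j0 - (n - 5 * m)) + (0 + ((n - 2 * m - (j0 + 1)) + (0 + 2 * m)))))
      (xs.drop 0) (ys.drop 0) := by
    apply editSeq_split xs ys 0 0 (n - 5 * m) (n - 5 * m) (by omega) (by omega) _ s1
    apply EditSeq.of_eq
    apply List.ext_getElem
    · simp [lx, ly]
    · intro t h1 h2
      simp only [List.length_take, List.length_drop, lx] at h1
      simp only [List.getElem_take, List.getElem_drop, hxs, hys, List.getElem_ofFn, baseX,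
        hiddenY, baseY, Function.update_apply, Fin.ext_iff]
      split_ifs <;> omega
  simp only [List.drop_zero] at s0
  refine (editDist_le s0).trans ?_
  omega

/-- The only match of the hidden string that the base string does not have is the planted one. -/
theorem hidden_match {n m : ℕ} (h : 5 * m ≤ n) {c : Fin n × Fin n} (hc : c ∈ cand n m)
    (p : Fin n × Fin n) (hp : p ≠ c) :
    (baseX n p.1 = hiddenY n m c p.2) ↔ (baseX n p.1 = baseY n m p.2) := by
  rw [mem_cand] at hc
  obtain ⟨a, b⟩ := p
  obtain ⟨i0, j0⟩ := c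
  simp only [hiddenY, Function.update_apply]
  split_ifs with hb
  · subst hb
    simp only [baseX, baseY]
    have h1 : a ≠ i0 := by rintro rfl; exact hp rfl
    have h2 : (a : ℕ) ≠ i0 := fun e => h1 (Fin.ext e)
    have h3 := a.2
    simp only at hc
    constructor
    · intro e; exact absurd e h2
    · intro e; split_ifs at e <;> omega
  · rfl

end Pool.Agent.Lib.MP_716191_lc
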